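import Mathlib
import Pool.Agent.H2.L.R_seed8.H261R2.CM.D

/-!
# The function `φ(λ) = ∫ log |2 cos(2πθ) - λ| dθ`

For real `λ` one has `φ(λ) = log⁺ ((|λ| + √(λ² - 4)) / 2)`.
-/

set_option autoImplicit false

namespace Pool.Agent.W242.IM

open MeasureTheory Polynomial
open Pool.Agent.H261R2.CM (ez D_norm_ez D_circleAverage)

noncomputable section

/-- the trace coordinate -/
def tc (t : ℝ) : ℝ := 2 * Real.cos (2 * Real.pi * t)

theorem continuous_tc : Continuous tc := by
  unfold tc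
  fun_prop

theorem abs_tc_le (t : ℝ) : |tc t| ≤ 2 := by
  unfold tc
  rw [abs_mul, abs_two]
  have := Real.abs_cos_le_one (2 * Real.pi * t)
  linarith

/-- the larger root of `z + 1/z = |λ|` (for `|λ| ≥ 2`) -/
def big (l : ℝ) : ℝ := (|l| + Real.sqrt (l ^ 2 - 4)) / 2

/-- the logarithmic Mahler measure of `z ^ 2 - λ z + 1` -/
def phi (l : ℝ) : ℝ := Real.posLog (big l)

theorem big_nonneg (l : ℝ) : 0 ≤ big l := by
  unfold big
  positivity

theorem big_neg (l : ℝ) : big (-l) = big l := by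
  unfold big
  rw [abs_neg, neg_sq]

theorem big_mono {a b : ℝ} (h : |a| ≤ |b|) : big a ≤ big b := by
  unfold big
  have h1 : a ^ 2 ≤ b ^ 2 := sq_le_sq.mpr h
  have h2 : Real.sqrt (a ^ 2 - 4) ≤ Real.sqrt (b ^ 2 - 4) := Real.sqrt_le_sqrt (by linarith)
  linarith

theorem half_le_big (l : ℝ) : |l| / 2 ≤ big l := by
  unfold big
  have := Real.sqrt_nonneg (l ^ 2 - 4)
  linarith

theorem big_le (l : ℝ) : big l ≤ |l| := by
  unfold big
  have : Real.sqrt (l ^ 2 - 4) ≤ |l| := by
    rw [← Real.sqrt_sq_eq_abs]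
    exact Real.sqrt_le_sqrt (by linarith)
  linarith

theorem phi_nonneg (l : ℝ) : 0 ≤ phi l := Real.posLog_nonneg

theorem phi_neg (l : ℝ) : phi (-l) = phi l := by
  unfold phi
  rw [big_neg]

theorem phi_mono {a b : ℝ} (h : |a| ≤ |b|) : phi a ≤ phi b :=
  Real.monotoneOn_posLog (big_nonneg a) (big_nonneg b) (big_mono h)

theorem big_le_one {l : ℝ} (h : |l| ≤ 2) : big l ≤ 1 := by
  unfold big
  have h1 : Real.sqrt (l ^ 2 - 4) = 0 := by
    apply Real.sqrt_eq_zero'.mpr
    have : l ^ 2 ≤ 2 ^ 2 := sq_le_sq.mpr (by rwa [abs_two])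
    linarith
  rw [h1]
  linarith

theorem phi_eq_zero {l : ℝ} (h : |l| ≤ 2) : phi l = 0 := by
  unfold phi
  rw [Real.posLog_eq_zero_iff, abs_of_nonneg (big_nonneg l)]
  exact big_le_one h

theorem posLog_half_le_phi (l : ℝ) : Real.posLog (|l| / 2) ≤ phi l :=
  Real.monotoneOn_posLog (by positivity : (0 : ℝ) ≤ |l| / 2) (big_nonneg l) (half_le_big l)

theorem phi_le_posLog (l : ℝ) : phi l ≤ Real.posLog |l| :=
  Real.monotoneOn_posLog (big_nonneg l) (abs_nonneg l) (big_le l)

/-- the quadratic polynomial -/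
def quad (l : ℝ) : ℂ[X] := X ^ 2 - C (l : ℂ) * X + 1

theorem ez_add_inv (t : ℝ) : ez t ^ 2 + 1 = ez t * ((tc t : ℝ) : ℂ) := by
  have h1 : ez t = Complex.cos ((2 * Real.pi * t : ℝ) : ℂ) + Complex.sin ((2 * Real.pi * t : ℝ) : ℂ) * Complex.I := by
    rw [← Complex.exp_mul_I]
    unfold ez
    congr 1
    push_cast
    ring
  have h2 : ((tc t : ℝ) : ℂ) = 2 * Complex.cos ((2 * Real.pi * t : ℝ) : ℂ) := by
    unfold tc
    push_cast
    ring
  rw [h1, h2]
  have h3 := Complex.cos_sq_add_sin_sq ((2 * Real.pi * t : ℝ) : ℂ)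
  have h4 := Complex.I_sq
  generalize Complex.cos ((2 * Real.pi * t : ℝ) : ℂ) = c at *
  generalize Complex.sin ((2 * Real.pi * t : ℝ) : ℂ) = s at *
  linear_combination (-1 : ℂ) * h3 + s ^ 2 * h4

theorem quad_eval (l t : ℝ) : (quad l).eval (ez t) = ez t * ((tc t - l : ℝ) : ℂ) := by
  have h := ez_add_inv t
  simp only [quad, eval_add, eval_sub, eval_pow, eval_X, eval_mul, eval_C, eval_one]
  push_cast
  linear_combination h

theorem norm_quad_eval (l t : ℝ) : ‖(quad l).eval (ez t)‖ = |tc t - l| := by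
  rw [quad_eval, norm_mul, D_norm_ez, one_mul, Complex.norm_real, Real.norm_eq_abs]

theorem quad_factor (l : ℝ) (r r' : ℂ) (h1 : r + r' = l) (h2 : r * r' = 1) :
    quad l = (X - C r) * (X - C r') := by
  unfold quad
  rw [← h1, C_add]
  have : (1 : ℂ[X]) = C r * C r' := by rw [← C_mul, h2, C_1]
  rw [this]
  ring

theorem logMahler_quad (l : ℝ) : (quad l).logMahlerMeasure = phi l := by
  have key : ∀ r r' : ℂ, r + r' = l → r * r' = 1 →
      (quad l).logMahlerMeasure = Real.posLog ‖r‖ + Real.posLog ‖r'‖ := by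
    intro r r' h1 h2
    rw [quad_factor l r r' h1 h2, logMahlerMeasure_mul_eq_add_logMahlerMeasure
      (mul_ne_zero (X_sub_C_ne_zero r) (X_sub_C_ne_zero r')),
      logMahlerMeasure_X_sub_C, logMahlerMeasure_X_sub_C]
  rcases le_or_gt 2 |l| with h | h
  · set s : ℝ := Real.sqrt (l ^ 2 - 4) with hs
    have hl : 4 ≤ l ^ 2 := by
      have : (2 : ℝ) ^ 2 ≤ |l| ^ 2 := pow_le_pow_left₀ (by norm_num) h 2
      rw [sq_abs] at this
      linarith
    have hss : s ^ 2 = l ^ 2 - 4 := Real.sq_sqrt (by linarith)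
    have hs0 : 0 ≤ s := Real.sqrt_nonneg _
    have h1 := key (((l + s) / 2 : ℝ) : ℂ) (((l - s) / 2 : ℝ) : ℂ) (by push_cast; ring) (by
      rw [← Complex.ofReal_mul]
      have : (l + s) / 2 * ((l - s) / 2) = 1 := by nlinarith
      rw [this, Complex.ofReal_one])
    rw [h1, Complex.norm_real, Complex.norm_real, Real.norm_eq_abs, Real.norm_eq_abs]
    have hsl : s ≤ |l| := by
      rw [hs, ← Real.sqrt_sq_eq_abs]
      exact Real.sqrt_le_sqrt (by linarith)
    have hprod : (|l| + s) / 2 * ((|l| - s) / 2) = 1 := by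
      have := sq_abs l
      nlinarith
    have hb : big l = (|l| + s) / 2 := rfl
    have hb1 : 1 ≤ (|l| + s) / 2 := by linarith
    have hsm : (|l| - s) / 2 ≤ 1 := by
      by_contra hcon
      push Not at hcon
      nlinarith
    have hsm0 : 0 ≤ (|l| - s) / 2 := by linarith
    have hz : Real.posLog ((|l| - s) / 2) = 0 := by
      rw [Real.posLog_eq_zero_iff, abs_of_nonneg hsm0]
      exact hsm
    unfold phi
    rw [hb]
    rcases le_or_gt 0 l with h0 | h0
    · rw [abs_of_nonneg h0] at *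
      rw [abs_of_nonneg (by linarith : 0 ≤ (l + s) / 2), abs_of_nonneg hsm0, hz, add_zero]
    · rw [abs_of_neg h0] at *
      have e1 : |(l + s) / 2| = (-l - s) / 2 := by
        rw [abs_of_nonpos (by linarith)]
        ring
      have e2 : |(l - s) / 2| = (-l + s) / 2 := by
        rw [abs_of_nonpos (by linarith)]
        ring
      rw [e1, e2, hz, zero_add]
  · rw [phi_eq_zero h.le]
    set s : ℝ := Real.sqrt (4 - l ^ 2) with hs
    have hl : l ^ 2 < 4 := by
      have : |l| ^ 2 < 2 ^ 2 := pow_lt_pow_left₀ h (abs_nonneg l) (by norm_num)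
      rw [sq_abs] at this
      linarith
    have hss : s ^ 2 = 4 - l ^ 2 := Real.sq_sqrt (by linarith)
    have hssC : (s : ℂ) ^ 2 = 4 - (l : ℂ) ^ 2 := by
      rw [← Complex.ofReal_pow, hss]
      push_cast
      ring
    have hI := Complex.I_sq
    have h1 := key (((l : ℂ) + s * Complex.I) / 2) (((l : ℂ) - s * Complex.I) / 2) (by ring) (by
      linear_combination (-(s : ℂ) ^ 2 / 4) * hI + (1 / 4 : ℂ) * hssC)
    have n1 : ‖((l : ℂ) + s * Complex.I) / 2‖ = 1 := by
      rw [norm_div, Complex.norm_add_mul_I, hss]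
      norm_num
    have n2 : ‖((l : ℂ) - s * Complex.I) / 2‖ = 1 := by
      have e : (l : ℂ) - s * Complex.I = (l : ℂ) + ((-s : ℝ) : ℂ) * Complex.I := by
        push_cast
        ring
      rw [e, norm_div, Complex.norm_add_mul_I, neg_sq, hss]
      norm_num
    rw [h1, n1, n2]
    simp

theorem circleAvg_quad (l : ℝ) : (quad l).logMahlerMeasure = ∫ t in (0:ℝ)..1, Real.log |tc t - l| := by
  rw [logMahlerMeasure_def, D_circleAverage]
  refine intervalIntegral.integral_congr fun t _ => ?_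
  show Real.log ‖_‖ = _
  rw [norm_quad_eval]

theorem integral_phi (l : ℝ) : ∫ t in (0:ℝ)..1, Real.log |tc t - l| = phi l := by
  rw [← circleAvg_quad, logMahler_quad]

end

end Pool.Agent.W242.IM
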