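import Mathlib
import Pool.Agent.H2.L.R_seed8.H261R2.CM.L1
import Pool.Agent.H2.L.R_seed8.W242.IM.Herm

/-!
# The reciprocal polynomial `z ^ n p (z + 1/z)` of an integer polynomial
-/

set_option autoImplicit false

namespace Pool.Agent.W242.IM

open MeasureTheory Polynomial Filter
open Pool.Agent.H261R2.CM

noncomputable section

/-- `X ^ n * p (X + 1 / X)` -/
def Rc (n : ℕ) (p : ℤ[X]) : ℤ[X] :=
  ∑ k ∈ Finset.range (n + 1), C (p.coeff k) * (X ^ 2 + 1) ^ k * X ^ (n - k)

theorem Rc_eval (n : ℕ) (p : ℤ[X]) (hn : p.natDegree ≤ n) (z w : ℂ) (h : z ^ 2 + 1 = z * w) :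
    (toC (Rc n p)).eval z = z ^ n * (toC p).eval w := by
  have h1 : (toC p).eval w = ∑ k ∈ Finset.range (n + 1), ((p.coeff k : ℤ) : ℂ) * w ^ k := by
    rw [eval_eq_sum_range' (n := n + 1)]
    · refine Finset.sum_congr rfl fun k _ => ?_
      simp [toC]
    · exact lt_of_le_of_lt (natDegree_map_le) (Nat.lt_succ_of_le hn)
  rw [h1, Finset.mul_sum]
  unfold Rc toC
  rw [Polynomial.map_sum, eval_finsetSum]
  refine Finset.sum_congr rfl fun k hk => ?_
  have hk' : k ≤ n := Nat.lt_succ_iff.mp (Finset.mem_range.mp hk)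
  rw [Polynomial.map_mul, Polynomial.map_mul, Polynomial.map_pow, Polynomial.map_pow,
    Polynomial.map_add, Polynomial.map_pow, Polynomial.map_one, map_X, map_C, eval_mul, eval_mul,
    eval_pow, eval_pow, eval_add, eval_pow, eval_one, eval_X, eval_C, eq_intCast]
  rw [h, mul_pow]
  have h2 : z ^ n = z ^ k * z ^ (n - k) := by rw [← pow_add, Nat.add_sub_cancel' hk']
  rw [h2]
  ring

theorem ev1_Rc (n : ℕ) (p : ℤ[X]) (hn : p.natDegree ≤ n) (t : ℝ) :
    ev1 (Rc n p) t = ez t ^ n * (toC p).eval ((tc t : ℝ) : ℂ) :=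
  Rc_eval n p hn _ _ (ez_add_inv t)

theorem norm_ev1_Rc (n : ℕ) (p : ℤ[X]) (hn : p.natDegree ≤ n) (t : ℝ) :
    ‖ev1 (Rc n p) t‖ = ‖(toC p).eval ((tc t : ℝ) : ℂ)‖ := by
  rw [ev1_Rc n p hn, norm_mul, norm_pow, D_norm_ez, one_pow, one_mul]

theorem eq_of_ev1 (A B : ℤ[X]) (h : ∀ t, ev1 A t = ev1 B t) : A = B := by
  by_contra hne
  have h1 := D_ae_ne (A - B) (sub_ne_zero.mpr hne)
  have h2 : ∀ t, ev1 (A - B) t = 0 := by
    intro t
    have : ev1 (A - B) t = ev1 A t - ev1 B t := by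
      unfold ev1 toC
      rw [Polynomial.map_sub, eval_sub]
    rw [this, h t, sub_self]
  have h3 : ∀ᵐ t : ℝ, False := by
    filter_upwards [h1] with t ht
    exact ht (h2 t)
  rw [eventually_false_iff_eq_bot, ae_eq_bot] at h3
  have := congrArg (fun μ : Measure ℝ => μ Set.univ) h3
  simp at this

theorem ev1_mul (A B : ℤ[X]) (t : ℝ) : ev1 (A * B) t = ev1 A t * ev1 B t := by
  unfold ev1 toC
  rw [Polynomial.map_mul, eval_mul]

theorem Rc_mul (n m : ℕ) (p q : ℤ[X]) (hn : p.natDegree ≤ n) (hm : q.natDegree ≤ m) :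
    Rc (n + m) (p * q) = Rc n p * Rc m q := by
  refine eq_of_ev1 _ _ fun t => ?_
  rw [ev1_mul, ev1_Rc (n + m) (p * q) (natDegree_mul_le.trans (add_le_add hn hm)), ev1_Rc n p hn,
    ev1_Rc m q hm]
  unfold toC
  rw [Polynomial.map_mul, eval_mul, pow_add]
  ring

theorem Rc_ne (n : ℕ) (p : ℤ[X]) (hn : p.natDegree ≤ n) (hp : p ≠ 0) : Rc n p ≠ 0 := by
  intro h0
  have h1 : ∀ t : ℝ, (toC p).eval ((tc t : ℝ) : ℂ) = 0 := by
    intro t
    have h2 := norm_ev1_Rc n p hn t
    rw [h0] at h2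
    have h3 : ev1 (0 : ℤ[X]) t = 0 := by simp [ev1, toC]
    rw [h3, norm_zero] at h2
    exact norm_eq_zero.mp h2.symm
  have hne : toC p ≠ 0 := D_toC_ne p hp
  have hinf : Set.Infinite {w : ℂ | (toC p).IsRoot w} := by
    have h2 : Set.Infinite ((fun x : ℝ => ((2 * x : ℝ) : ℂ)) '' Set.Icc (-1) 1) := by
      refine Set.Infinite.image ?_ (Set.Icc_infinite (by norm_num))
      intro a _ b _ hab
      have h5 : ((2 * a : ℝ) : ℂ) = ((2 * b : ℝ) : ℂ) := hab
      have : (2 * a : ℝ) = 2 * b := Complex.ofReal_injective h5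
      linarith
    refine h2.mono ?_
    rintro _ ⟨x, hx, rfl⟩
    have h3 := h1 (Real.arccos x / (2 * Real.pi))
    have h4 : tc (Real.arccos x / (2 * Real.pi)) = 2 * x := by
      unfold tc
      rw [mul_div_cancel₀ _ (by positivity), Real.cos_arccos hx.1 hx.2]
    rw [h4] at h3
    exact h3
  exact hinf (Polynomial.finite_setOfPred_isRoot hne)

theorem mp_eq_log_m1 (n : ℕ) (p : ℤ[X]) (hn : p.natDegree ≤ n) :
    mp (toC p) = Real.log (m1 (Rc n p)) := by
  rw [D_log_m1]
  unfold mp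
  refine intervalIntegral.integral_congr fun t _ => ?_
  show _ = Real.log ‖ev1 (Rc n p) t‖
  rw [norm_ev1_Rc n p hn]

theorem mp_int_nonneg (p : ℤ[X]) (hp : p ≠ 0) : 0 ≤ mp (toC p) := by
  rw [mp_eq_log_m1 p.natDegree p le_rfl]
  exact Real.log_nonneg (I1_one_le_m1 (Rc_ne _ _ le_rfl hp))

theorem mp_int_mul (p q : ℤ[X]) (hp : p ≠ 0) (hq : q ≠ 0) :
    mp (toC (p * q)) = mp (toC p) + mp (toC q) := by
  rw [mp_eq_log_m1 (p.natDegree + q.natDegree) (p * q) natDegree_mul_le,
    mp_eq_log_m1 p.natDegree p le_rfl, mp_eq_log_m1 q.natDegree q le_rfl,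
    Rc_mul _ _ _ _ le_rfl le_rfl, I1_m1_mul, Real.log_mul]
  · exact (lt_of_lt_of_le one_pos (I1_one_le_m1 (Rc_ne _ _ le_rfl hp))).ne'
  · exact (lt_of_lt_of_le one_pos (I1_one_le_m1 (Rc_ne _ _ le_rfl hq))).ne'

theorem coeff_zero_Rc (p : ℤ[X]) : (Rc p.natDegree p).coeff 0 = p.leadingCoeff := by
  rw [coeff_zero_eq_eval_zero]
  unfold Rc
  rw [eval_finsetSum, Finset.sum_eq_single p.natDegree]
  · simp
  · intro b hb hne
    have hb' : b < p.natDegree := lt_of_le_of_ne (Nat.lt_succ_iff.mp (Finset.mem_range.mp hb)) hne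
    simp only [eval_mul, eval_pow, eval_X]
    rw [zero_pow (by omega), mul_zero]
  · intro h
    exact absurd (Finset.mem_range.mpr (Nat.lt_succ_self _)) h

theorem relPrime_Rc (p q : ℤ[X]) (hu : IsUnit p.leadingCoeff) (h : IsRelPrime p q) :
    IsRelPrime (Rc p.natDegree p) (Rc q.natDegree q) := by
  intro D hD1 hD2
  have hc0 : IsUnit (D.coeff 0) := by
    obtain ⟨E, hE⟩ := hD1
    have h1 : (Rc p.natDegree p).coeff 0 = D.coeff 0 * E.coeff 0 := by rw [hE, mul_coeff_zero]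
    rw [coeff_zero_Rc] at h1
    rw [h1] at hu
    exact isUnit_of_mul_isUnit_left hu
  by_cases hdeg : D.natDegree = 0
  · rw [eq_C_of_natDegree_eq_zero hdeg]
    exact hc0.map C
  · exfalso
    have hDC : (toC D).degree ≠ 0 := by
      have h1 : (toC D).natDegree = D.natDegree :=
        natDegree_map_eq_of_injective (RingHom.injective_int _) D
      intro h2
      have h3 : (toC D).natDegree = 0 := natDegree_eq_of_degree_eq_some h2
      omega
    obtain ⟨z, hz⟩ := IsAlgClosed.exists_root (toC D) hDC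
    have hz0 : z ≠ 0 := by
      rintro rfl
      have h1 : (toC D).coeff 0 = 0 := by rw [coeff_zero_eq_eval_zero]; exact hz
      unfold toC at h1
      rw [coeff_map] at h1
      have h2 : D.coeff 0 = 0 := by simpa using h1
      rw [h2] at hc0
      exact not_isUnit_zero hc0
    have hroot : ∀ r : ℤ[X], D ∣ Rc r.natDegree r → (toC r).eval (z + z⁻¹) = 0 := by
      rintro r ⟨E, hE⟩
      have h1 := Rc_eval r.natDegree r le_rfl z (z + z⁻¹) (by field_simp)
      rw [hE] at h1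
      unfold toC at h1
      rw [Polynomial.map_mul, eval_mul] at h1
      have h2 : (D.map (Int.castRingHom ℂ)).eval z = 0 := hz
      rw [h2, zero_mul] at h1
      rcases mul_eq_zero.mp h1.symm with h3 | h3
      · exact absurd h3 (pow_ne_zero _ hz0)
      · exact h3
    have hp0 := hroot p hD1
    have hq0 := hroot q hD2
    have hint : IsIntegral ℤ (z + z⁻¹) := by
      rcases Int.isUnit_iff.mp hu with h1 | h1
      · exact ⟨p, h1, by rw [← hp0]; unfold toC; rw [eval_map]; rfl⟩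
      · refine ⟨-p, ?_, ?_⟩
        · unfold Monic
          rw [leadingCoeff_neg, h1]
          norm_num
        · rw [eval₂_neg]
          have : eval₂ (algebraMap ℤ ℂ) (z + z⁻¹) p = 0 := by
            rw [← hp0]; unfold toC; rw [eval_map]; rfl
          rw [this, neg_zero]
    have h1 : minpoly ℤ (z + z⁻¹) ∣ p := minpoly.isIntegrallyClosed_dvd hint (by
      rw [aeval_def, eval₂_eq_eval_map]
      exact hp0)
    have h2 : minpoly ℤ (z + z⁻¹) ∣ q := minpoly.isIntegrallyClosed_dvd hint (by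
      rw [aeval_def, eval₂_eq_eval_map]
      exact hq0)
    have h3 := h h1 h2
    exact minpoly.not_isUnit ℤ (z + z⁻¹) h3

end

end Pool.Agent.W242.IM
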