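import Mathlib
import Pool.Agent.H2.L.R_seed8.W242.IM.Pair

/-!
# Minimal noncyclotomic matrices
-/

set_option autoImplicit false
set_option linter.unusedSectionVars false

namespace Pool.Agent.W242.IM

open MeasureTheory Polynomial Filter Matrix

noncomputable section

variable {κ : Type*} [Fintype κ] [DecidableEq κ]

theorem phi_eq_zero_iff (l : ℝ) : phi l = 0 ↔ |l| ≤ 2 := by
  refine ⟨fun h => ?_, phi_eq_zero⟩
  unfold phi at h
  rw [Real.posLog_eq_zero_iff, abs_of_nonneg (big_nonneg l)] at h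
  have := half_le_big l
  linarith

theorem mp_eq_zero_iff {B : Matrix κ κ ℂ} (hB : B.IsHermitian) :
    mp B.charpoly = 0 ↔ ∀ j, |hB.eigenvalues j| ≤ 2 := by
  rw [(mp_charpoly hB).2, Finset.sum_eq_zero_iff_of_nonneg (fun _ _ => phi_nonneg _)]
  simp only [Finset.mem_univ, true_implies, phi_eq_zero_iff]

theorem qf_le_of_cyc {B : Matrix κ κ ℂ} (hB : B.IsHermitian) (h : mp B.charpoly = 0)
    (x : κ → ℂ) : |qf B x| ≤ 2 * nsq x :=
  qf_abs_le (sd_of_hermitian hB) 2 ((mp_eq_zero_iff hB).mp h) x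

theorem cyc_of_qf_le {B : Matrix κ κ ℂ} (hB : B.IsHermitian)
    (h : ∀ x : κ → ℂ, |qf B x| ≤ 2 * nsq x) : mp B.charpoly = 0 := by
  rw [mp_eq_zero_iff hB]
  intro j
  obtain ⟨y, h1, h2⟩ := exists_eigen (sd_of_hermitian hB) j
  have := h y
  rw [h1, h2, mul_one] at this
  exact this

theorem qf_eq_sum (B : Matrix κ κ ℂ) (x : κ → ℂ) :
    qf B x = ∑ i, ∑ j, (star (x i) * B i j * x j).re := by
  unfold qf dotProduct mulVec dotProduct
  rw [Complex.re_sum]
  refine Finset.sum_congr rfl fun i _ => ?_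
  rw [Finset.mul_sum, Complex.re_sum]
  refine Finset.sum_congr rfl fun j _ => ?_
  rw [Pi.star_apply, mul_assoc]

theorem qf_update_sum (B : Matrix κ κ ℂ) (y : κ → ℂ) :
    ∑ v, qf B (Function.update y v 0) =
      ((Fintype.card κ : ℝ) - 2) * qf B y + ∑ i, ‖y i‖ ^ 2 * (B i i).re := by
  set T : κ → κ → ℝ := fun i j => (star (y i) * B i j * y j).re with hT
  have h1 : ∀ v, qf B (Function.update y v 0) =
      ∑ i, ∑ j, if i = v ∨ j = v then 0 else T i j := by
    intro v
    rw [qf_eq_sum]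
    refine Finset.sum_congr rfl fun i _ => Finset.sum_congr rfl fun j _ => ?_
    by_cases hi : i = v
    · subst hi
      simp
    · by_cases hj : j = v
      · subst hj
        simp
      · rw [Function.update_of_ne hi, Function.update_of_ne hj, if_neg (by tauto)]
  have h2 : ∀ i j, (∑ v, if i = v ∨ j = v then (0:ℝ) else T i j) =
      ((Fintype.card κ : ℝ) - 2) * T i j + if i = j then T i j else 0 := by
    intro i j
    have h3 : ∀ v, (if i = v ∨ j = v then (0:ℝ) else T i j) =
        T i j - (if i = v then T i j else 0) - (if j = v then T i j else 0) +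
          (if i = v ∧ j = v then T i j else 0) := by
      intro v
      by_cases h4 : i = v <;> by_cases h5 : j = v <;> simp [h4, h5]
    simp_rw [h3]
    rw [Finset.sum_add_distrib, Finset.sum_sub_distrib, Finset.sum_sub_distrib, Finset.sum_const,
      Finset.sum_ite_eq, Finset.sum_ite_eq, Finset.card_univ]
    by_cases hij : i = j
    · subst hij
      simp
      ring
    · have h6 : ∀ v, ¬ (i = v ∧ j = v) := fun v h => hij (h.1.trans h.2.symm)
      simp [h6, hij]
      ring
  simp_rw [h1]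
  rw [Finset.sum_comm]
  have h3 : ∀ i, (∑ v, ∑ j, if i = v ∨ j = v then (0:ℝ) else T i j) =
      ∑ j, (((Fintype.card κ : ℝ) - 2) * T i j + if i = j then T i j else 0) := by
    intro i
    rw [Finset.sum_comm]
    exact Finset.sum_congr rfl fun j _ => h2 i j
  simp_rw [h3, Finset.sum_add_distrib]
  rw [qf_eq_sum]
  simp_rw [← Finset.mul_sum]
  congr 1
  refine Finset.sum_congr rfl fun i _ => ?_
  rw [Finset.sum_ite_eq, if_pos (Finset.mem_univ i), hT]
  simp only
  have h4 : star (y i) * B i i * y i = ((‖y i‖ ^ 2 : ℝ) : ℂ) * B i i := by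
    have h5 := Complex.normSq_eq_conj_mul_self (z := y i)
    rw [Complex.normSq_eq_norm_sq] at h5
    rw [h5, Complex.star_def]
    ring
  rw [h4, Complex.re_ofReal_mul]

theorem nsq_update (y : κ → ℂ) (v : κ) : nsq (Function.update y v 0) = nsq y - ‖y v‖ ^ 2 := by
  unfold nsq
  rw [← Finset.add_sum_erase Finset.univ (fun i => ‖y i‖ ^ 2) (Finset.mem_univ v),
    ← Finset.add_sum_erase Finset.univ (fun i => ‖Function.update y v 0 i‖ ^ 2) (Finset.mem_univ v)]
  have h1 : ∑ x ∈ Finset.univ.erase v, ‖Function.update y v 0 x‖ ^ 2 =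
      ∑ x ∈ Finset.univ.erase v, ‖y x‖ ^ 2 := by
    refine Finset.sum_congr rfl fun i hi => ?_
    rw [Function.update_of_ne (Finset.ne_of_mem_erase hi)]
  rw [h1]
  simp

/-- the vectors vanishing at `v` -/
theorem restrict_facts (B : Matrix κ κ ℂ) (v : κ) (x : κ → ℂ) (hx : x v = 0) :
    nsq (fun i : {i // i ≠ v} => x i) = nsq x ∧ qf (del B v) (fun i : {i // i ≠ v} => x i) = qf B x := by
  have h1 : Function.extend (Subtype.val : {i // i ≠ v} → κ) (fun i : {i // i ≠ v} => x i)
      (0 : κ → ℂ) = x := by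
    funext i
    by_cases hi : i = v
    · subst hi
      rw [Function.extend_apply' (f := (Subtype.val : {j // j ≠ i} → κ)) _ (0 : κ → ℂ) i
        (by rintro ⟨a, ha⟩; exact a.2 ha), hx]
      rfl
    · exact Subtype.val_injective.extend_apply (fun i : {i // i ≠ v} => x i) (0 : κ → ℂ) ⟨i, hi⟩
  have h2 := nsq_extend (Subtype.val : {i // i ≠ v} → κ) Subtype.val_injective
    (fun i : {i // i ≠ v} => x i)
  have h3 := qf_extend (Subtype.val : {i // i ≠ v} → κ) Subtype.val_injective
    (fun i : {i // i ≠ v} => x i) B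
  rw [h1] at h2 h3
  exact ⟨h2.symm, h3.symm⟩

/-- A matrix all of whose submatrices with one row deleted are cyclotomic has all its eigenvalues
near `[-2, 2]`. -/
theorem mp_le_of_del_cyc {B : Matrix κ κ ℂ} (hB : B.IsHermitian) (hn : 3 ≤ Fintype.card κ)
    (h : ∀ v, mp (del B v).charpoly = 0) :
    mp B.charpoly ≤ 2 * phi (2 + 4 / ((Fintype.card κ : ℝ) - 2)) := by
  have hn' : (3 : ℝ) ≤ Fintype.card κ := by exact_mod_cast hn
  have hH : ∀ v (x : κ → ℂ), x v = 0 → |qf B x| ≤ 2 * nsq x := by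
    intro v x hx
    obtain ⟨h1, h2⟩ := restrict_facts B v x hx
    rw [← h1, ← h2]
    exact qf_le_of_cyc (del_hermitian hB v) (h v) _
  have hdiag : ∀ i, |(B i i).re| ≤ 2 := by
    intro i
    obtain ⟨v, hv⟩ := Fintype.exists_ne_of_one_lt_card (by omega : 1 < Fintype.card κ) i
    have h1 := hH v (Pi.single i 1) (by simp [hv])
    have h2 : nsq (Pi.single i (1 : ℂ)) = 1 := by
      unfold nsq
      rw [Finset.sum_eq_single i]
      · simp
      · intro b _ hb
        simp [hb]
      · simp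
    have h3 : qf B (Pi.single i 1) = (B i i).re := by
      unfold qf
      simp
    rw [h2, h3, mul_one] at h1
    exact h1
  have hbound : ∀ j, |hB.eigenvalues j| ≤ 2 + 4 / ((Fintype.card κ : ℝ) - 2) := by
    intro j
    obtain ⟨y, h1, h2⟩ := exists_eigen (sd_of_hermitian hB) j
    have h3 := qf_update_sum B y
    have h4 : |∑ v, qf B (Function.update y v 0)| ≤ 2 * ((Fintype.card κ : ℝ) - 1) := by
      calc |∑ v, qf B (Function.update y v 0)| ≤ ∑ v, |qf B (Function.update y v 0)| :=
            Finset.abs_sum_le_sum_abs _ _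
        _ ≤ ∑ v, 2 * (nsq y - ‖y v‖ ^ 2) := by
            refine Finset.sum_le_sum fun v _ => ?_
            rw [← nsq_update]
            exact hH v _ (by simp)
        _ = 2 * ((Fintype.card κ : ℝ) - 1) := by
            rw [← Finset.mul_sum, Finset.sum_sub_distrib, Finset.sum_const, Finset.card_univ]
            have h5 : ∑ v, ‖y v‖ ^ 2 = nsq y := rfl
            rw [h5, h1]
            simp
    have h5 : |∑ i, ‖y i‖ ^ 2 * (B i i).re| ≤ 2 := by
      calc |∑ i, ‖y i‖ ^ 2 * (B i i).re| ≤ ∑ i, |‖y i‖ ^ 2 * (B i i).re| :=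
            Finset.abs_sum_le_sum_abs _ _
        _ ≤ ∑ i, ‖y i‖ ^ 2 * 2 := by
            refine Finset.sum_le_sum fun i _ => ?_
            rw [abs_mul, abs_of_nonneg (by positivity : 0 ≤ ‖y i‖ ^ 2)]
            exact mul_le_mul_of_nonneg_left (hdiag i) (by positivity)
        _ = 2 := by
            rw [← Finset.sum_mul]
            have h5 : ∑ v, ‖y v‖ ^ 2 = nsq y := rfl
            rw [h5, h1, one_mul]
    rw [h3, h2] at h4
    have hpos : 0 < (Fintype.card κ : ℝ) - 2 := by linarith
    have h6 : ((Fintype.card κ : ℝ) - 2) * |hB.eigenvalues j| ≤ 2 * (Fintype.card κ : ℝ) := by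
      have h8 : ((Fintype.card κ : ℝ) - 2) * |hB.eigenvalues j| =
          |((Fintype.card κ : ℝ) - 2) * hB.eigenvalues j| := by rw [abs_mul, abs_of_pos hpos]
      rw [h8]
      rw [abs_le] at h4 h5 ⊢
      constructor <;> linarith [h4.1, h4.2, h5.1, h5.2]
    have h7 : 2 + 4 / ((Fintype.card κ : ℝ) - 2) = 2 * (Fintype.card κ : ℝ) / ((Fintype.card κ : ℝ) - 2) := by
      field_simp
      ring
    rw [h7, le_div_iff₀ hpos, mul_comm]
    exact h6
  have : Nonempty κ := Fintype.card_pos_iff.mp (by omega)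
  obtain ⟨v⟩ : Nonempty κ := inferInstance
  have hmain := sum_phi_le (sd_of_hermitian (del_hermitian hB v)) (sd_of_hermitian hB)
    (LinearMap.funLeft ℂ ℂ (Subtype.val : {i // i ≠ v} → κ)) (F := ℂ) (LinearMap.proj v)
    (fun x hx => restrict_facts B v x hx) _ hbound
  rw [← (mp_charpoly hB).2, ← (mp_charpoly (del_hermitian hB v)).2, h v, Module.finrank_self] at hmain
  push_cast at hmain
  linarith

theorem big_continuous : Continuous big := by
  unfold big
  fun_prop

theorem phi_continuous : Continuous phi := Real.continuous_posLog.comp big_continuous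

theorem exists_size (δ : ℝ) (hδ : 0 < δ) :
    ∃ N : ℕ, 3 ≤ N ∧ ∀ n : ℕ, N ≤ n → 2 * phi (2 + 4 / ((n : ℝ) - 2)) < δ := by
  have h1 : Tendsto (fun n : ℕ => 2 * phi (2 + 4 / ((n : ℝ) - 2))) atTop
      (nhds (2 * phi (2 + 0))) := by
    refine Tendsto.const_mul 2 ((phi_continuous.tendsto _).comp (Tendsto.const_add 2 ?_))
    refine Tendsto.div_atTop tendsto_const_nhds ?_
    exact tendsto_atTop_add_const_right _ (-2) tendsto_natCast_atTop_atTop
  rw [add_zero, phi_eq_zero (by norm_num), mul_zero] at h1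
  have h2 := (h1.eventually (Iio_mem_nhds hδ))
  obtain ⟨N, hN⟩ := eventually_atTop.mp h2
  exact ⟨max N 3, le_max_right _ _, fun n hn => hN n ((le_max_left _ _).trans hn)⟩

end

end Pool.Agent.W242.IM
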