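import Mathlib
import Pool.Agent.H2.L.R_seed8.W242.IM.Del

/-!
# Matrices of blocks
-/

set_option autoImplicit false
set_option linter.unusedSectionVars false

namespace Pool.Agent.W242.IM

open MeasureTheory Polynomial Filter Matrix
open Pool.Agent.H261R2.CM

noncomputable section

/-- the gap when at most `k` rows are deleted -/
theorem gap_step (k : ℕ) : ∃ δ : ℝ, 0 < δ ∧ ∀ (ι : Type) [Fintype ι] [DecidableEq ι]
    (A : Matrix ι ι ℂ), A.IsHermitian → ∀ U W : Finset ι, W ⊆ U → (U \ W).card ≤ k →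
      Itg A U → Itg A W → mp (cp A W) = 0 → mp (cp A U) = 0 ∨ δ ≤ mp (cp A U) := by
  obtain ⟨δ, hδ, h⟩ := pair_gap (1 + k * (2 + 5 * Real.log 2))
  refine ⟨min δ 1, lt_min hδ one_pos, fun ι _ _ A hA U W hWU hk ⟨p, hp1⟩ ⟨q, hq1⟩ h0 => ?_⟩
  have hl2 : 0 < Real.log 2 := Real.log_pos (by norm_num)
  rcases le_or_gt (mp (cp A U)) 1 with h1 | h1
  · obtain ⟨g1, g2, g3⟩ := gcd_cond p q U W hp1 hq1 h0
    have h2 := height_chain hA U (U \ W) Finset.sdiff_subset
    rw [Finset.sdiff_sdiff_eq_self hWU] at h2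
    have h0' := cp_nonneg hA U
    have hk' : ((U \ W).card : ℝ) ≤ k := by exact_mod_cast hk
    have h4 : ((U \ W).card : ℝ) * (2 * mp (cp A U) + 5 * Real.log 2) ≤
        k * (2 + 5 * Real.log 2) :=
      mul_le_mul hk' (by linarith) (by positivity) (by positivity)
    have h3 : hp (toC p) (toC q) ≤ 1 + k * (2 + 5 * Real.log 2) := by
      rw [hp1, hq1]
      unfold hp
      linarith
    rcases h p q g1 g2 g3 h3 with h4 | h4
    · left
      rw [← hp1, h4]
    · right
      rw [← hp1]
      exact (min_le_left _ _).trans h4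
  · right
    exact (min_le_right _ _).trans h1.le

/-- Lehmer's problem for Hermitian matrices with a chain of integral principal submatrices. -/
theorem lehmer_chain (k : ℕ) : ∃ δ : ℝ, 0 < δ ∧ ∀ (ι : Type) [Fintype ι] [DecidableEq ι]
    (A : Matrix ι ι ℂ), A.IsHermitian → ∀ (r : ℕ) (c : ℕ → Finset ι), c 0 = ∅ → c r = Finset.univ →
      (∀ i, i < r → c i ⊆ c (i + 1) ∧ (c (i + 1) \ c i).card ≤ k) → (∀ i, i ≤ r → Itg A (c i)) →
      mp A.charpoly = 0 ∨ δ ≤ mp A.charpoly := by
  obtain ⟨δ, hδ, h⟩ := gap_step k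
  refine ⟨δ, hδ, fun ι _ _ A hA r c h0 hr hc hI => ?_⟩
  have key : ∀ i, i ≤ r → mp (cp A (c i)) = 0 ∨ δ ≤ mp (cp A (c i)) := by
    intro i
    induction i with
    | zero =>
      intro _
      left
      rw [h0]
      exact mp_empty A hA
    | succ i ih =>
      intro hi
      obtain ⟨h1, h2⟩ := hc i (by omega)
      rcases ih (by omega) with h3 | h3
      · exact h ι A hA (c (i + 1)) (c i) h1 h2 (hI _ hi) (hI _ (by omega)) h3
      · right
        exact h3.trans (mp_mono hA h1)
  have := key r le_rfl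
  rw [hr, mp_univ] at this
  exact this

variable {ι B : Type*} [Fintype ι] [DecidableEq ι] [Fintype B] [DecidableEq B]

/-- the rows in a set of blocks -/
def pre (β : ι → B) (U : Finset B) : Finset ι := Finset.univ.filter fun i => β i ∈ U

theorem mem_pre {β : ι → B} {U : Finset B} {i : ι} : i ∈ pre β U ↔ β i ∈ U := by
  unfold pre
  simp

theorem pre_mono (β : ι → B) {U V : Finset B} (h : U ⊆ V) : pre β U ⊆ pre β V := fun _ hi =>
  mem_pre.mpr (h (mem_pre.mp hi))

theorem pre_union (β : ι → B) (U V : Finset B) : pre β (U ∪ V) = pre β U ∪ pre β V := by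
  ext i
  simp [mem_pre]

theorem pre_empty (β : ι → B) : pre β ∅ = ∅ := by
  ext i
  simp [mem_pre]

theorem pre_univ (β : ι → B) : pre β Finset.univ = Finset.univ := by
  ext i
  simp [mem_pre]

theorem pre_sdiff (β : ι → B) (U V : Finset B) : pre β (U \ V) = pre β U \ pre β V := by
  ext i
  simp [mem_pre]

/-- vectors supported in a set -/
theorem qf_le_supp {A : Matrix ι ι ℂ} (hA : A.IsHermitian) (U : Finset ι)
    (h : mp (cp A U) = 0) (x : ι → ℂ) (hx : ∀ i, i ∉ U → x i = 0) : |qf A x| ≤ 2 * nsq x := by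
  have h1 : Function.extend (Subtype.val : U → ι) (fun i : U => x i) (0 : ι → ℂ) = x := by
    funext i
    by_cases hi : i ∈ U
    · exact Subtype.val_injective.extend_apply (fun i : U => x i) (0 : ι → ℂ) ⟨i, hi⟩
    · rw [Function.extend_apply' (f := (Subtype.val : U → ι)) _ (0 : ι → ℂ) i
        (by rintro ⟨a, ha⟩; exact hi (ha ▸ a.2)), hx i hi]
      rfl
  have h2 := nsq_extend (Subtype.val : U → ι) Subtype.val_injective (fun i : U => x i)
  have h3 := qf_extend (Subtype.val : U → ι) Subtype.val_injective (fun i : U => x i) A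
  rw [h1] at h2 h3
  rw [h2, h3]
  exact qf_le_of_cyc (sm_hermitian hA U) h _

theorem mp_le_add {A : Matrix ι ι ℂ} (hA : A.IsHermitian) (U W : Finset ι) (hW : W ⊆ U) (ρ : ℝ)
    (hρ : ∀ y : ι → ℂ, (∀ i, i ∉ U → y i = 0) → |qf A y| ≤ ρ * nsq y) :
    mp (cp A U) ≤ mp (cp A W) + 2 * (U \ W).card * phi ρ := by
  have hU := sd_of_hermitian (sm_hermitian hA U)
  have hWW := sd_of_hermitian (sm_hermitian hA W)
  have hbound : ∀ j, |(sm_hermitian hA U).eigenvalues j| ≤ ρ := by
    intro j
    obtain ⟨y, h1, h2⟩ := exists_eigen hU j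
    have h3 := hρ (Function.extend (Subtype.val : U → ι) y 0) (fun i hi => by
      rw [Function.extend_apply' (f := (Subtype.val : U → ι)) _ (0 : ι → ℂ) i
        (by rintro ⟨a, ha⟩; exact hi (ha ▸ a.2))]
      rfl)
    rw [qf_extend (Subtype.val : U → ι) Subtype.val_injective y A,
      nsq_extend (Subtype.val : U → ι) Subtype.val_injective y, h1, mul_one] at h3
    have h4 : qf (A.submatrix (Subtype.val : U → ι) Subtype.val) y = qf (sm A U) y := rfl
    rw [h4, h2] at h3
    exact h3
  set f : W → U := fun w => ⟨w.1, hW w.2⟩ with hf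
  have hfi : Function.Injective f := fun a b hab => Subtype.ext (congrArg (fun u : U => u.1) hab)
  set g : (U \ W : Finset ι) → U := fun w => ⟨w.1, (Finset.mem_sdiff.mp w.2).1⟩ with hg
  have hmain := sum_phi_le hWW hU (LinearMap.funLeft ℂ ℂ f) (F := (U \ W : Finset ι) → ℂ)
    (LinearMap.funLeft ℂ ℂ g) (fun x hx => ?_) ρ hbound
  · rw [← (mp_charpoly (sm_hermitian hA U)).2, ← (mp_charpoly (sm_hermitian hA W)).2,
      Module.finrank_fintype_fun_eq_card, Fintype.card_coe] at hmain
    exact hmain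
  · have h1 : Function.extend f (fun w => x (f w)) (0 : U → ℂ) = x := by
      funext i
      by_cases hi : (i : ι) ∈ W
      · have h2 : i = f ⟨i, hi⟩ := rfl
        rw [h2]
        exact hfi.extend_apply (fun w => x (f w)) (0 : U → ℂ) ⟨i, hi⟩
      · rw [Function.extend_apply' (f := f) _ (0 : U → ℂ) i
          (by rintro ⟨a, ha⟩; exact hi (by rw [← ha]; exact a.2))]
        have h2 := congrFun hx ⟨i.1, Finset.mem_sdiff.mpr ⟨i.2, hi⟩⟩
        exact h2.symm
    have h2 := nsq_extend f hfi (fun w => x (f w))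
    have h3 := qf_extend f hfi (fun w => x (f w)) (sm A U)
    rw [h1] at h2 h3
    exact ⟨h2.symm, h3.symm⟩

/-! ### Averaging over the blocks -/

theorem qf_block_sum (A : Matrix ι ι ℂ) (β : ι → B) (V : Finset B) (y : ι → ℂ)
    (hy : ∀ i, i ∉ pre β V → y i = 0) :
    ∑ b ∈ V, qf A (fun i => if β i = b then 0 else y i) =
      ((V.card : ℝ) - 2) * qf A y + ∑ b ∈ V, qf A (fun i => if β i = b then y i else 0) := by
  set T : ι → ι → ℝ := fun i j => (star (y i) * A i j * y j).re with hT
  have h1 : ∀ b, qf A (fun i => if β i = b then 0 else y i) =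
      ∑ i, ∑ j, if β i = b ∨ β j = b then 0 else T i j := by
    intro b
    rw [qf_eq_sum]
    refine Finset.sum_congr rfl fun i _ => Finset.sum_congr rfl fun j _ => ?_
    by_cases hi : β i = b
    · simp [hi]
    · by_cases hj : β j = b
      · simp [hj]
      · simp [hi, hj, hT]
  have h1' : ∀ b, qf A (fun i => if β i = b then y i else 0) =
      ∑ i, ∑ j, if β i = b ∧ β j = b then T i j else 0 := by
    intro b
    rw [qf_eq_sum]
    refine Finset.sum_congr rfl fun i _ => Finset.sum_congr rfl fun j _ => ?_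
    by_cases hi : β i = b
    · by_cases hj : β j = b
      · simp [hi, hj, hT]
      · simp [hj]
    · simp [hi]
  have h2 : ∀ i j, (∑ b ∈ V, if β i = b ∨ β j = b then (0:ℝ) else T i j) =
      ((V.card : ℝ) - 2) * T i j + ∑ b ∈ V, if β i = b ∧ β j = b then T i j else 0 := by
    intro i j
    by_cases hi : β i ∈ V
    · by_cases hj : β j ∈ V
      · have h3 : ∀ b, (if β i = b ∨ β j = b then (0:ℝ) else T i j) =
            T i j - (if β i = b then T i j else 0) - (if β j = b then T i j else 0) +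
              (if β i = b ∧ β j = b then T i j else 0) := by
          intro v
          by_cases h4 : β i = v <;> by_cases h5 : β j = v <;> simp [h4, h5]
        simp_rw [h3]
        rw [Finset.sum_add_distrib, Finset.sum_sub_distrib, Finset.sum_sub_distrib,
          Finset.sum_const, Finset.sum_ite_eq, Finset.sum_ite_eq, if_pos hi, if_pos hj,
          nsmul_eq_mul]
        ring
      · have h4 : T i j = 0 := by
          rw [hT]
          simp only
          rw [hy j (by rw [mem_pre]; exact hj)]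
          simp
        rw [h4]
        simp
    · have h4 : T i j = 0 := by
        rw [hT]
        simp only
        rw [hy i (by rw [mem_pre]; exact hi)]
        simp
      rw [h4]
      simp
  simp_rw [h1, h1']
  rw [Finset.sum_comm]
  have h3 : ∀ i, (∑ b ∈ V, ∑ j, if β i = b ∨ β j = b then (0:ℝ) else T i j) =
      ∑ j, (((V.card : ℝ) - 2) * T i j + ∑ b ∈ V, if β i = b ∧ β j = b then T i j else 0) := by
    intro i
    rw [Finset.sum_comm]
    exact Finset.sum_congr rfl fun j _ => h2 i j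
  simp_rw [h3, Finset.sum_add_distrib]
  rw [qf_eq_sum]
  simp_rw [← Finset.mul_sum]
  congr 1
  rw [Finset.sum_comm' (s := V) (t := fun _ => Finset.univ) (t' := Finset.univ) (s' := fun _ => V)
    (by simp)]
  refine Finset.sum_congr rfl fun i _ => ?_
  rw [Finset.sum_comm]

theorem nsq_block_sum (β : ι → B) (V : Finset B) (y : ι → ℂ)
    (hy : ∀ i, i ∉ pre β V → y i = 0) :
    ∑ b ∈ V, nsq (fun i => if β i = b then y i else 0) = nsq y ∧
      ∑ b ∈ V, nsq (fun i => if β i = b then 0 else y i) = ((V.card : ℝ) - 1) * nsq y := by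
  have h1 : ∑ b ∈ V, nsq (fun i => if β i = b then y i else 0) = nsq y := by
    unfold nsq
    rw [Finset.sum_comm]
    refine Finset.sum_congr rfl fun i _ => ?_
    have h2 : ∀ b, ‖(if β i = b then y i else 0)‖ ^ 2 = if β i = b then ‖y i‖ ^ 2 else 0 := by
      intro b
      split_ifs <;> simp
    simp_rw [h2]
    rw [Finset.sum_ite_eq]
    split_ifs with h3
    · rfl
    · rw [hy i (by rw [mem_pre]; exact h3)]
      simp
  refine ⟨h1, ?_⟩
  have h2 : ∀ b, nsq (fun i => if β i = b then 0 else y i) =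
      nsq y - nsq (fun i => if β i = b then y i else 0) := by
    intro b
    unfold nsq
    rw [← Finset.sum_sub_distrib]
    refine Finset.sum_congr rfl fun i _ => ?_
    by_cases hib : β i = b <;> simp [hib]
  simp_rw [h2]
  rw [Finset.sum_sub_distrib, h1, Finset.sum_const, nsmul_eq_mul]
  ring

theorem qf_near {A : Matrix ι ι ℂ} (hA : A.IsHermitian) (β : ι → B) (V : Finset B)
    (hV : 3 ≤ V.card) (h : ∀ b ∈ V, mp (cp A (pre β (V.erase b))) = 0) (y : ι → ℂ)
    (hy : ∀ i, i ∉ pre β V → y i = 0) :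
    |qf A y| ≤ (2 + 4 / ((V.card : ℝ) - 2)) * nsq y := by
  have hn' : (3 : ℝ) ≤ V.card := by exact_mod_cast hV
  have h1 := qf_block_sum A β V y hy
  obtain ⟨h2, h3⟩ := nsq_block_sum β V y hy
  have h4 : |∑ b ∈ V, qf A (fun i => if β i = b then 0 else y i)| ≤
      2 * (((V.card : ℝ) - 1) * nsq y) := by
    rw [← h3, Finset.mul_sum]
    refine (Finset.abs_sum_le_sum_abs _ _).trans (Finset.sum_le_sum fun b hb => ?_)
    refine qf_le_supp hA _ (h b hb) _ fun i hi => ?_
    rw [mem_pre, Finset.mem_erase, not_and] at hi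
    by_cases hib : β i = b
    · simp [hib]
    · simp only [hib, if_false]
      exact hy i (by rw [mem_pre]; exact hi hib)
  have h5 : |∑ b ∈ V, qf A (fun i => if β i = b then y i else 0)| ≤ 2 * nsq y := by
    rw [← h2, Finset.mul_sum]
    refine (Finset.abs_sum_le_sum_abs _ _).trans (Finset.sum_le_sum fun b hb => ?_)
    obtain ⟨c, hc, hcb⟩ := Finset.exists_mem_ne (by omega : 1 < V.card) b
    refine qf_le_supp hA _ (h c hc) _ fun i hi => ?_
    rw [mem_pre, Finset.mem_erase, not_and] at hi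
    by_cases hib : β i = b
    · exact absurd hb (by rw [← hib]; exact hi (by rw [hib]; exact Ne.symm hcb))
    · simp [hib]
  rw [h1] at h4
  have hpos : 0 < (V.card : ℝ) - 2 := by linarith
  have h6 : ((V.card : ℝ) - 2) * |qf A y| ≤ 2 * (V.card : ℝ) * nsq y := by
    have h8 : ((V.card : ℝ) - 2) * |qf A y| = |((V.card : ℝ) - 2) * qf A y| := by
      rw [abs_mul, abs_of_pos hpos]
    rw [h8]
    rw [abs_le] at h4 h5 ⊢
    constructor <;> nlinarith [h4.1, h4.2, h5.1, h5.2]
  have h7 : 2 + 4 / ((V.card : ℝ) - 2) = 2 * (V.card : ℝ) / ((V.card : ℝ) - 2) := by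
    field_simp
    ring
  rw [h7, div_mul_eq_mul_div, le_div_iff₀ hpos, mul_comm]
  exact h6

theorem exists_minimal_block (A : Matrix ι ι ℂ) (β : ι → B) (U : Finset B)
    (hU : mp (cp A (pre β U)) ≠ 0) :
    ∃ V ⊆ U, mp (cp A (pre β V)) ≠ 0 ∧ ∀ v ∈ V, mp (cp A (pre β (V.erase v))) = 0 := by
  induction U using Finset.strongInduction with
  | H U ih =>
    by_cases h : ∀ v ∈ U, mp (cp A (pre β (U.erase v))) = 0
    · exact ⟨U, Finset.Subset.refl _, hU, h⟩
    · push Not at h
      obtain ⟨v, hv, hne⟩ := h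
      obtain ⟨V, hV, h1, h2⟩ := ih (U.erase v) (Finset.erase_ssubset hv) hne
      exact ⟨V, hV.trans (Finset.erase_subset _ _), h1, h2⟩

/-- Noncyclotomic block matrices contain small noncyclotomic principal submatrices. -/
theorem size_bound_block (k : ℕ) : ∃ (δ : ℝ) (N : ℕ), 0 < δ ∧ ∀ (ι B : Type) [Fintype ι]
    [DecidableEq ι] [Fintype B] [DecidableEq B] (A : Matrix ι ι ℂ) (β : ι → B),
    A.IsHermitian → (∀ b, (pre β {b}).card ≤ k) → (∀ U, Itg A (pre β U)) → ∀ U,
      mp (cp A (pre β U)) ≠ 0 → ∃ V ⊆ U, V.card ≤ N ∧ δ ≤ mp (cp A (pre β V)) := by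
  obtain ⟨δ, hδ, h⟩ := gap_step k
  obtain ⟨N, hN, hN'⟩ := exists_size (δ / (k + 1)) (by positivity)
  refine ⟨δ, N, hδ, fun ι B _ _ _ _ A β hA hk hI U hU => ?_⟩
  obtain ⟨V, hV, h1, h2⟩ := exists_minimal_block A β U hU
  have hne : V.Nonempty := by
    rw [Finset.nonempty_iff_ne_empty]
    rintro rfl
    exact h1 (by rw [pre_empty]; exact mp_empty A hA)
  obtain ⟨v, hv⟩ := hne
  have hdiff : pre β V \ pre β (V.erase v) = pre β {v} := by
    rw [← pre_sdiff]
    congr 1
    ext b
    simp only [Finset.mem_sdiff, Finset.mem_erase, Finset.mem_singleton]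
    constructor
    · tauto
    · rintro rfl
      tauto
  have hcard : (pre β V \ pre β (V.erase v)).card ≤ k := by
    rw [hdiff]
    exact hk v
  have h3 : δ ≤ mp (cp A (pre β V)) :=
    (h ι A hA _ _ (pre_mono β (Finset.erase_subset v V)) hcard (hI V) (hI _) (h2 v hv)).resolve_left h1
  refine ⟨V, hV, ?_, h3⟩
  by_contra hcon
  push Not at hcon
  have h4 := mp_le_add hA (pre β V) (pre β (V.erase v)) (pre_mono β (Finset.erase_subset v V)) _
    (qf_near hA β V (by omega) h2)
  rw [h2 v hv, zero_add] at h4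
  have h5 := hN' V.card hcon.le
  have h6 : 0 ≤ phi (2 + 4 / ((V.card : ℝ) - 2)) := phi_nonneg _
  have h7 : ((pre β V \ pre β (V.erase v)).card : ℝ) ≤ k := by exact_mod_cast hcard
  rw [lt_div_iff₀ (by positivity)] at h5
  nlinarith

end

end Pool.Agent.W242.IM
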