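import Mathlib
import Pool.Agent.H2.L.R_seed8.W242.IM.Block

/-!
# Matrices of blocks: bounded degrees and bounded deletion sets
-/

set_option autoImplicit false
set_option linter.unusedSectionVars false

namespace Pool.Agent.W242.IM

open MeasureTheory Polynomial Filter Matrix
open Pool.Agent.H261R2.CM

noncomputable section

/-! ### Integrality of the sum of the squares of the entries -/

theorem reverse_X_sub (a : ℂ) : (X - C a : ℂ[X]).reverse = 1 - C a * X := by
  ext n
  rw [coeff_reverse, natDegree_X_sub_C]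
  rcases n with _ | _ | n
  · rw [revAt_le (by norm_num)]
    simp
  · rw [revAt_le (by norm_num)]
    simp [coeff_one]
  · rw [revAt_eq_self_of_lt (by omega)]
    rw [coeff_sub, coeff_sub, coeff_X, coeff_C, coeff_one, coeff_C_mul, coeff_X]
    simp

theorem rev_facts {κ : Type*} [DecidableEq κ] (l : κ → ℂ) (s : Finset κ) :
    (∏ j ∈ s, (X - C (l j))).reverse.coeff 0 = 1 ∧
    (∏ j ∈ s, (X - C (l j))).reverse.coeff 1 = -∑ j ∈ s, l j ∧
    (∑ j ∈ s, l j) ^ 2 - 2 * (∏ j ∈ s, (X - C (l j))).reverse.coeff 2 = ∑ j ∈ s, l j ^ 2 := by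
  induction s using Finset.induction_on with
  | empty =>
    have h1 : (1 : ℂ[X]).reverse = 1 := by
      rw [← C_1, reverse_C]
    rw [Finset.prod_empty, Finset.sum_empty, Finset.sum_empty, h1]
    simp [coeff_one]
  | insert a s ha ih =>
    obtain ⟨h0, h1, h2⟩ := ih
    rw [Finset.prod_insert ha, reverse_mul_of_domain, reverse_X_sub, Finset.sum_insert ha,
      Finset.sum_insert ha]
    set Q := (∏ j ∈ s, (X - C (l j))).reverse with hQ
    have e : (1 - C (l a) * X) * Q = Q - C (l a) * (X * Q) := by ring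
    rw [e]
    refine ⟨?_, ?_, ?_⟩
    · rw [coeff_sub, coeff_C_mul, coeff_zero_eq_eval_zero (X * Q)]
      simp [h0]
    · rw [coeff_sub, coeff_C_mul, coeff_X_mul, h0, h1]
      ring
    · rw [coeff_sub, coeff_C_mul, coeff_X_mul, h1]
      linear_combination h2

theorem trace_sq {κ : Type*} [Fintype κ] [DecidableEq κ] {M : Matrix κ κ ℂ} (hM : M.IsHermitian) :
    ∑ i, ∑ j, ‖M i j‖ ^ 2 = ∑ j, hM.eigenvalues j ^ 2 := by
  have hU1 : star (hM.eigenvectorUnitary : Matrix κ κ ℂ) * (hM.eigenvectorUnitary : Matrix κ κ ℂ) = 1 :=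
    Unitary.coe_star_mul_self _
  set U : Matrix κ κ ℂ := (hM.eigenvectorUnitary : Matrix κ κ ℂ) with hU
  set D : Matrix κ κ ℂ := diagonal (fun j => ((hM.eigenvalues j : ℝ) : ℂ)) with hD
  have hsp : M = U * D * star U := by
    have := hM.spectral_theorem
    rw [Unitary.conjStarAlgAut_apply] at this
    exact this
  have h1 : (M * M).trace = ∑ j, ((hM.eigenvalues j : ℝ) : ℂ) ^ 2 := by
    have h2 : M * M = U * (D * D) * star U := by
      conv_lhs => rw [hsp]
      calc U * D * star U * (U * D * star U) = U * D * (star U * U) * D * star U := by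
            simp only [mul_assoc]
        _ = U * (D * D) * star U := by rw [hU1, mul_one]; simp only [mul_assoc]
    rw [h2, trace_mul_cycle, hU1, one_mul, hD, diagonal_mul_diagonal, trace_diagonal]
    refine Finset.sum_congr rfl fun j _ => ?_
    ring
  have h3 : (M * M).trace = ((∑ i, ∑ j, ‖M i j‖ ^ 2 : ℝ) : ℂ) := by
    unfold Matrix.trace
    push_cast
    refine Finset.sum_congr rfl fun i _ => ?_
    rw [diag_apply, mul_apply]
    refine Finset.sum_congr rfl fun j _ => ?_
    have h4 : M j i = star (M i j) := (hM.apply j i).symm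
    have h5 := Complex.normSq_eq_conj_mul_self (z := M i j)
    rw [Complex.normSq_eq_norm_sq] at h5
    push_cast at h5
    rw [h5, h4, Complex.star_def]
    ring
  have h4 : ((∑ i, ∑ j, ‖M i j‖ ^ 2 : ℝ) : ℂ) = ((∑ j, hM.eigenvalues j ^ 2 : ℝ) : ℂ) := by
    rw [← h3, h1]
    push_cast
    rfl
  exact Complex.ofReal_injective h4

theorem frob_int {ι : Type*} [Fintype ι] [DecidableEq ι] {A : Matrix ι ι ℂ} (hA : A.IsHermitian)
    (U : Finset ι) (hI : Itg A U) : ∃ m : ℤ, ∑ i ∈ U, ∑ j ∈ U, ‖A i j‖ ^ 2 = m := by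
  obtain ⟨p, hp1⟩ := hI
  have h1 := trace_sq (sm_hermitian hA U)
  have h2 : ∑ i : U, ∑ j : U, ‖sm A U i j‖ ^ 2 = ∑ i ∈ U, ∑ j ∈ U, ‖A i j‖ ^ 2 := by
    rw [← Finset.sum_coe_sort U]
    refine Finset.sum_congr rfl fun i _ => ?_
    rw [← Finset.sum_coe_sort U (fun j => ‖A i j‖ ^ 2)]
    rfl
  rw [h2] at h1
  obtain ⟨_, h4, h5⟩ := rev_facts (fun j => (((sm_hermitian hA U).eigenvalues j : ℝ) : ℂ))
    Finset.univ
  have h6 : (∏ j, (X - C (((sm_hermitian hA U).eigenvalues j : ℝ) : ℂ))) = toC p := by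
    rw [hp1]
    exact (sm_hermitian hA U).charpoly_eq.symm
  rw [h6] at h4 h5
  have h7 : ∀ n, ∃ c : ℤ, (toC p).reverse.coeff n = (c : ℂ) := by
    intro n
    rw [coeff_reverse]
    unfold toC
    rw [coeff_map]
    exact ⟨_, rfl⟩
  obtain ⟨c1, hc1⟩ := h7 1
  obtain ⟨c2, hc2⟩ := h7 2
  refine ⟨c1 ^ 2 - 2 * c2, ?_⟩
  have h8 : ((∑ i ∈ U, ∑ j ∈ U, ‖A i j‖ ^ 2 : ℝ) : ℂ) = (((c1 ^ 2 - 2 * c2 : ℤ) : ℝ) : ℂ) := by
    rw [h1]
    push_cast
    rw [← h5, hc2]
    have h9 : (∑ j, (((sm_hermitian hA U).eigenvalues j : ℝ) : ℂ)) = -(c1 : ℂ) := by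
      rw [← hc1, h4, neg_neg]
    rw [h9]
    ring
  exact Complex.ofReal_injective h8

theorem row_bound {ι : Type*} [Fintype ι] [DecidableEq ι] {A : Matrix ι ι ℂ}
    (hA : A.IsHermitian) (b : ℝ) (hb : mp A.charpoly ≤ b) (i : ι) :
    ∑ j, ‖A i j‖ ^ 2 ≤ 4 * Real.exp (2 * b) := by
  have hρ : ∀ j, |hA.eigenvalues j| ≤ 2 * Real.exp b := by
    intro j
    rcases eq_or_lt_of_le (abs_nonneg (hA.eigenvalues j)) with h0 | h0
    · rw [← h0]
      positivity
    · have h1 : phi (hA.eigenvalues j) ≤ b := by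
        refine le_trans ?_ hb
        rw [(mp_charpoly hA).2]
        exact Finset.single_le_sum (f := fun j => phi (hA.eigenvalues j))
          (fun _ _ => phi_nonneg _) (Finset.mem_univ j)
      have h2 : Real.log (|hA.eigenvalues j| / 2) ≤ b :=
        (le_max_right _ _).trans ((posLog_half_le_phi _).trans h1)
      rw [Real.log_le_iff_le_exp (by positivity)] at h2
      linarith
  have h1 := nsq_mulVec_le hA _ hρ (Pi.single i 1)
  have h2 : nsq (Pi.single i (1 : ℂ)) = 1 := by
    unfold nsq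
    rw [Finset.sum_eq_single i]
    · simp
    · intro b _ hb
      simp [hb]
    · simp
  rw [h2, mul_one] at h1
  have h3 : nsq (A *ᵥ Pi.single i 1) = ∑ j, ‖A i j‖ ^ 2 := by
    unfold nsq
    refine Finset.sum_congr rfl fun j _ => ?_
    rw [mulVec_single_one, Matrix.col_apply, ← hA.apply i j, norm_star]
  rw [h3] at h1
  have h5 : (2 * Real.exp b) ^ 2 = 4 * Real.exp (2 * b) := by
    rw [mul_pow, ← Real.exp_nat_mul]
    norm_num
  rw [h5] at h1
  exact h1

variable {ι B : Type*} [Fintype ι] [DecidableEq ι] [Fintype B] [DecidableEq B]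

/-- the mass of a block -/
def crs (A : Matrix ι ι ℂ) (β : ι → B) (b c : B) : ℝ :=
  ∑ i ∈ pre β {b}, ∑ j ∈ pre β {c}, ‖A i j‖ ^ 2

theorem crs_nonneg (A : Matrix ι ι ℂ) (β : ι → B) (b c : B) : 0 ≤ crs A β b c :=
  Finset.sum_nonneg fun _ _ => Finset.sum_nonneg fun _ _ => by positivity

theorem crs_symm {A : Matrix ι ι ℂ} (hA : A.IsHermitian) (β : ι → B) (b c : B) :
    crs A β b c = crs A β c b := by
  unfold crs
  rw [Finset.sum_comm]
  refine Finset.sum_congr rfl fun i _ => Finset.sum_congr rfl fun j _ => ?_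
  rw [← hA.apply j i, norm_star]

theorem crs_int {A : Matrix ι ι ℂ} (hA : A.IsHermitian) (β : ι → B)
    (hI : ∀ U, Itg A (pre β U)) (b c : B) (hbc : b ≠ c) : ∃ m : ℤ, 2 * crs A β b c = m := by
  obtain ⟨m1, h1⟩ := frob_int hA _ (hI {b})
  obtain ⟨m2, h2⟩ := frob_int hA _ (hI {c})
  obtain ⟨m3, h3⟩ := frob_int hA _ (hI {b, c})
  have hd : Disjoint (pre β {b}) (pre β {c}) := by
    rw [Finset.disjoint_left]
    intro i hi hj
    rw [mem_pre, Finset.mem_singleton] at hi hj
    exact hbc (hi.symm.trans hj)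
  have he : pre β {b, c} = pre β {b} ∪ pre β {c} := by
    rw [← pre_union]
    rfl
  rw [he, Finset.sum_union hd] at h3
  simp_rw [Finset.sum_union hd] at h3
  rw [Finset.sum_add_distrib, Finset.sum_add_distrib] at h3
  refine ⟨m3 - m1 - m2, ?_⟩
  have h4 := crs_symm hA β b c
  unfold crs at h4 ⊢
  push_cast
  linarith

theorem crs_ge {A : Matrix ι ι ℂ} (hA : A.IsHermitian) (β : ι → B)
    (hI : ∀ U, Itg A (pre β U)) (b c : B) (hbc : b ≠ c) (i j : ι) (hi : β i = b) (hj : β j = c)
    (h0 : A i j ≠ 0) : 1 / 2 ≤ crs A β b c := by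
  obtain ⟨m, hm⟩ := crs_int hA β hI b c hbc
  have h1 : 0 < crs A β b c := by
    have h2 : ‖A i j‖ ^ 2 ≤ crs A β b c := by
      unfold crs
      refine le_trans ?_ (Finset.single_le_sum (f := fun i => ∑ j ∈ pre β {c}, ‖A i j‖ ^ 2)
        (fun _ _ => Finset.sum_nonneg fun _ _ => by positivity)
        (show i ∈ pre β {b} by rw [mem_pre, hi]; exact Finset.mem_singleton_self _))
      exact Finset.single_le_sum (f := fun j => ‖A i j‖ ^ 2) (fun _ _ => by positivity)
        (show j ∈ pre β {c} by rw [mem_pre, hj]; exact Finset.mem_singleton_self _)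
    have h3 : 0 < ‖A i j‖ ^ 2 := by
      have := norm_pos_iff.mpr h0
      positivity
    linarith
  have h2 : (0 : ℝ) < m := by linarith
  have h3 : 0 < m := by exact_mod_cast h2
  have h4 : (1 : ℝ) ≤ m := by exact_mod_cast h3
  linarith

/-- the blocks adjacent to a block -/
def nbr (A : Matrix ι ι ℂ) (β : ι → B) (b : B) : Finset B :=
  Finset.univ.filter fun c => crs A β b c ≠ 0

theorem nbr_card {A : Matrix ι ι ℂ} (hA : A.IsHermitian) (β : ι → B)
    (hI : ∀ U, Itg A (pre β U)) (k : ℕ) (hk : ∀ b, (pre β {b}).card ≤ k) (m : ℝ)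
    (hm : mp A.charpoly ≤ m) (b : B) :
    ((nbr A β b).card : ℝ) ≤ 1 + 8 * k * Real.exp (2 * m) := by
  classical
  have h1 : ∑ c, crs A β b c = ∑ i ∈ pre β {b}, ∑ j, ‖A i j‖ ^ 2 := by
    unfold crs
    rw [Finset.sum_comm]
    refine Finset.sum_congr rfl fun i _ => ?_
    have h2 : ∀ c, ∑ j ∈ pre β {c}, ‖A i j‖ ^ 2 = ∑ j, if β j = c then ‖A i j‖ ^ 2 else 0 := by
      intro c
      rw [← Finset.sum_filter]
      refine Finset.sum_congr ?_ fun _ _ => rfl
      ext j
      simp [mem_pre]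
    simp_rw [h2]
    rw [Finset.sum_comm]
    refine Finset.sum_congr rfl fun j _ => ?_
    simp
  have h2 : ∑ c, crs A β b c ≤ k * (4 * Real.exp (2 * m)) := by
    rw [h1]
    refine (Finset.sum_le_sum fun i _ => row_bound hA m hm i).trans ?_
    rw [Finset.sum_const, nsmul_eq_mul]
    refine mul_le_mul_of_nonneg_right ?_ (by positivity)
    exact_mod_cast hk b
  have h3 : ((nbr A β b).card : ℝ) = ∑ c, if crs A β b c ≠ 0 then (1:ℝ) else 0 := by
    unfold nbr
    rw [Finset.sum_boole]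
  rw [h3, ← Finset.add_sum_erase Finset.univ (fun c => if crs A β b c ≠ 0 then (1:ℝ) else 0)
    (Finset.mem_univ b)]
  rw [← Finset.add_sum_erase Finset.univ (fun c => crs A β b c) (Finset.mem_univ b)] at h2
  have h6 : (if crs A β b b ≠ 0 then (1:ℝ) else 0) ≤ 1 := by split_ifs <;> norm_num
  have h7 := crs_nonneg A β b b
  have h8 : ∑ c ∈ Finset.univ.erase b, (if crs A β b c ≠ 0 then (1:ℝ) else 0) ≤
      2 * ∑ c ∈ Finset.univ.erase b, crs A β b c := by
    rw [Finset.mul_sum]
    refine Finset.sum_le_sum fun c hc => ?_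
    split_ifs with h9
    · obtain ⟨i, hi, h10⟩ := Finset.exists_ne_zero_of_sum_ne_zero h9
      obtain ⟨j, hj, h11⟩ := Finset.exists_ne_zero_of_sum_ne_zero h10
      rw [mem_pre, Finset.mem_singleton] at hi hj
      have h12 := crs_ge hA β hI b c (Ne.symm (Finset.ne_of_mem_erase hc)) i j hi hj (by
        intro h0
        apply h11
        rw [h0]
        simp)
      linarith
    · have := crs_nonneg A β b c
      linarith
  linarith

/-! ### Separated families of sets of blocks -/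

/-- pairwise separated families -/
def SepB (A : Matrix ι ι ℂ) (β : ι → B) (F : Finset (Finset B)) : Prop :=
  ∀ U ∈ F, ∀ V ∈ F, U ≠ V → Disjoint U V ∧ ∀ i, β i ∈ U → ∀ j, β j ∈ V → A i j = 0

theorem mp_sum_block {A : Matrix ι ι ℂ} (hA : A.IsHermitian) (β : ι → B)
    (F : Finset (Finset B)) (hF : SepB A β F) :
    mp (cp A (pre β (F.biUnion id))) = ∑ U ∈ F, mp (cp A (pre β U)) := by
  induction F using Finset.induction_on with
  | empty =>
    rw [Finset.biUnion_empty, Finset.sum_empty, pre_empty]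
    exact mp_empty A hA
  | insert V F hV ih =>
    have hF' : SepB A β F := fun U hU W hW hne =>
      hF U (Finset.mem_insert_of_mem hU) W (Finset.mem_insert_of_mem hW) hne
    rw [Finset.biUnion_insert, Finset.sum_insert hV, ← ih hF', id, pre_union,
      cp_union A (pre β V) (pre β (F.biUnion id)), mp_mul_cp hA]
    · rw [Finset.disjoint_left]
      intro i hi hj
      rw [mem_pre] at hi hj
      obtain ⟨U, hU, hiU⟩ := Finset.mem_biUnion.mp hj
      exact Finset.disjoint_left.mp (hF V (Finset.mem_insert_self _ _) U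
        (Finset.mem_insert_of_mem hU) (by rintro rfl; exact hV hU)).1 hi hiU
    · intro i hi j hj
      rw [mem_pre] at hi hj
      obtain ⟨U, hU, hiU⟩ := Finset.mem_biUnion.mp hi
      exact (hF U (Finset.mem_insert_of_mem hU) V (Finset.mem_insert_self _ _)
        (by rintro rfl; exact hV hU)).2 i hiU j hj

theorem crs_zero {A : Matrix ι ι ℂ} {β : ι → B} {b c : B} (h : crs A β b c = 0) (i j : ι)
    (hi : β i = b) (hj : β j = c) : A i j = 0 := by
  by_contra h0
  have h2 : ‖A i j‖ ^ 2 ≤ crs A β b c := by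
    unfold crs
    refine le_trans ?_ (Finset.single_le_sum (f := fun i => ∑ j ∈ pre β {c}, ‖A i j‖ ^ 2)
      (fun _ _ => Finset.sum_nonneg fun _ _ => by positivity)
      (show i ∈ pre β {b} by rw [mem_pre, hi]; exact Finset.mem_singleton_self _))
    exact Finset.single_le_sum (f := fun j => ‖A i j‖ ^ 2) (fun _ _ => by positivity)
      (show j ∈ pre β {c} by rw [mem_pre, hj]; exact Finset.mem_singleton_self _)
  have h3 : 0 < ‖A i j‖ ^ 2 := by
    have := norm_pos_iff.mpr h0
    positivity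
  linarith

theorem deletion_block (k : ℕ) (m : ℝ) : ∃ s : ℕ, ∀ (ι B : Type) [Fintype ι]
    [DecidableEq ι] [Fintype B] [DecidableEq B] (A : Matrix ι ι ℂ) (β : ι → B),
    A.IsHermitian → (∀ b, (pre β {b}).card ≤ k) → (∀ U, Itg A (pre β U)) → mp A.charpoly ≤ m →
      ∃ S : Finset B, S.card ≤ s ∧ mp (cp A (pre β (Finset.univ \ S))) = 0 := by
  classical
  obtain ⟨δ, N, hδ, h⟩ := size_bound_block k
  refine ⟨⌊m / δ⌋₊ * N * (1 + ⌊1 + 8 * k * Real.exp (2 * m)⌋₊), fun ι B _ _ _ _ A β hA hk hI hb => ?_⟩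
  set good : Finset (Finset (Finset B)) := Finset.univ.filter fun F =>
    SepB A β F ∧ ∀ U ∈ F, U.card ≤ N ∧ δ ≤ mp (cp A (pre β U)) with hgood
  have hne : good.Nonempty := by
    refine ⟨∅, ?_⟩
    rw [hgood, Finset.mem_filter]
    refine ⟨Finset.mem_univ _, ?_, ?_⟩
    · intro U hU
      exact absurd hU (Finset.notMem_empty U)
    · intro U hU
      exact absurd hU (Finset.notMem_empty U)
  obtain ⟨F, hF, hmax⟩ := Finset.exists_max_image good Finset.card hne
  rw [hgood, Finset.mem_filter] at hF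
  obtain ⟨-, hsep, hFU⟩ := hF
  have hcard : (F.card : ℝ) * δ ≤ m := by
    have h1 := mp_sum_block hA β F hsep
    have h2 : (F.card : ℝ) * δ ≤ ∑ U ∈ F, mp (cp A (pre β U)) := by
      rw [← nsmul_eq_mul]
      exact Finset.card_nsmul_le_sum F _ δ (fun U hU => (hFU U hU).2)
    have h3 := mp_mono hA (Finset.subset_univ (pre β (F.biUnion id)))
    rw [mp_univ] at h3
    linarith
  have hFcard : F.card ≤ ⌊m / δ⌋₊ := by
    apply Nat.le_floor
    rw [le_div_iff₀ hδ]
    exact hcard
  set W := F.biUnion id with hW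
  have hWcard : W.card ≤ ⌊m / δ⌋₊ * N := by
    calc W.card ≤ ∑ U ∈ F, (id U).card := Finset.card_biUnion_le
      _ ≤ ∑ U ∈ F, N := Finset.sum_le_sum fun U hU => (hFU U hU).1
      _ = F.card * N := by rw [Finset.sum_const, smul_eq_mul]
      _ ≤ ⌊m / δ⌋₊ * N := Nat.mul_le_mul_right N hFcard
  set D := ⌊1 + 8 * k * Real.exp (2 * m)⌋₊ with hD
  set S := W ∪ W.biUnion (nbr A β) with hS
  have hdeg : ∀ b, (nbr A β b).card ≤ D := by
    intro b
    apply Nat.le_floor
    exact nbr_card hA β hI k hk m hb b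
  have hScard : S.card ≤ ⌊m / δ⌋₊ * N * (1 + D) := by
    calc S.card ≤ W.card + (W.biUnion (nbr A β)).card :=
          Finset.card_union_le _ _
      _ ≤ W.card + W.card * D := by
          refine Nat.add_le_add_left ?_ _
          exact Finset.card_biUnion_le_card_mul _ _ _ fun i _ => hdeg i
      _ = W.card * (1 + D) := by ring
      _ ≤ ⌊m / δ⌋₊ * N * (1 + D) := Nat.mul_le_mul_right _ hWcard
  refine ⟨S, hScard, ?_⟩
  by_contra hcon
  obtain ⟨V, hV, hVN, hVδ⟩ := h ι B A β hA hk hI _ hcon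
  have hVS : ∀ v ∈ V, v ∉ S := fun v hv => (Finset.mem_sdiff.mp (hV hv)).2
  have hVF : V ∉ F := by
    intro hVF
    have hVe : V = ∅ := by
      rw [Finset.eq_empty_iff_forall_notMem]
      intro v hv
      exact hVS v hv (Finset.mem_union_left _ (Finset.mem_biUnion.mpr ⟨V, hVF, hv⟩))
    rw [hVe, pre_empty, mp_empty A hA] at hVδ
    linarith
  have hnew : insert V F ∈ good := by
    rw [hgood, Finset.mem_filter]
    refine ⟨Finset.mem_univ _, ?_, ?_⟩
    · have key : ∀ U ∈ F, Disjoint U V ∧ ∀ i, β i ∈ U → ∀ j, β j ∈ V → A i j = 0 := by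
        intro U hU
        constructor
        · rw [Finset.disjoint_left]
          intro i hiU hiV
          exact hVS i hiV (Finset.mem_union_left _ (Finset.mem_biUnion.mpr ⟨U, hU, hiU⟩))
        · intro i hi j hj
          refine crs_zero (b := β i) (c := β j) (β := β) ?_ i j rfl rfl
          by_contra hne
          refine hVS (β j) hj (Finset.mem_union_right _ (Finset.mem_biUnion.mpr
            ⟨β i, Finset.mem_biUnion.mpr ⟨U, hU, hi⟩, ?_⟩))
          exact Finset.mem_filter.mpr ⟨Finset.mem_univ _, hne⟩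
      intro U hU U' hU' hne
      rcases Finset.mem_insert.mp hU with hU1 | hU1 <;>
        rcases Finset.mem_insert.mp hU' with hU2 | hU2
      · exact absurd (hU1.trans hU2.symm) hne
      · subst hU1
        refine ⟨(key U' hU2).1.symm, fun i hi j hj => ?_⟩
        have h1 := (key U' hU2).2 j hj i hi
        rw [← hA.apply i j, h1, star_zero]
      · subst hU2
        exact key U hU1
      · exact hsep U hU1 U' hU2 hne
    · intro U hU
      rcases Finset.mem_insert.mp hU with hU1 | hU1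
      · subst hU1
        exact ⟨hVN, hVδ⟩
      · exact hFU U hU1
  have := hmax _ hnew
  rw [Finset.card_insert_of_notMem hVF] at this
  omega

theorem pre_card_le {β : ι → B} {k : ℕ} (hk : ∀ b, (pre β {b}).card ≤ k) (S : Finset B) :
    (pre β S).card ≤ S.card * k := by
  have h1 : pre β S = S.biUnion (fun b => pre β {b}) := by
    ext i
    simp [mem_pre]
  rw [h1]
  exact Finset.card_biUnion_le_card_mul _ _ _ fun b _ => hk b

/-- deleting rows -/
theorem deleted_LL (s : ℕ) (m : ℝ) (ι : Type) [Fintype ι] [DecidableEq ι] (A : Matrix ι ι ℂ)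
    (hA : A.IsHermitian) (S : Finset ι) (hS : S.card ≤ s) (p q : ℤ[X])
    (hp1 : toC p = A.charpoly) (hq1 : toC q = cp A (Finset.univ \ S))
    (hgcd : ∀ d : ℤ[X], d ∣ p → d ∣ q → mp (toC d) = 0) (hm : mp A.charpoly ≤ m) :
    Real.exp (mp A.charpoly) ∈ LL (m + s * (2 * m + 5 * Real.log 2)) := by
  have g1 : p.Monic := toC_monic (by rw [hp1]; exact charpoly_monic _)
  have g2 : q.Monic := toC_monic (by rw [hq1]; exact charpoly_monic _)
  have h1 := height_chain hA Finset.univ S (Finset.subset_univ S)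
  have h2 : mp (cp A Finset.univ) ≤ m := by rw [mp_univ]; exact hm
  have h3 : 0 ≤ mp (cp A Finset.univ) := cp_nonneg hA _
  have hl2 : 0 < Real.log 2 := Real.log_pos (by norm_num)
  have h4 : (S.card : ℝ) ≤ s := by exact_mod_cast hS
  have h5 : (S.card : ℝ) * (2 * mp (cp A Finset.univ) + 5 * Real.log 2) ≤
      s * (2 * m + 5 * Real.log 2) := by
    apply mul_le_mul h4 (by linarith) (by positivity) (by positivity)
  have h6 := pair_LL p q g1 g2.ne_zero hgcd (m + s * (2 * m + 5 * Real.log 2)) (by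
    rw [hp1, hq1, ← mp_univ]
    unfold hp
    linarith)
  rw [hp1] at h6
  exact h6

theorem class_LL_block (k : ℕ) (m : ℝ) : ∃ K : ℝ, ∀ (ι B : Type) [Fintype ι]
    [DecidableEq ι] [Fintype B] [DecidableEq B] (A : Matrix ι ι ℂ) (β : ι → B),
    A.IsHermitian → (∀ b, (pre β {b}).card ≤ k) → (∀ U, Itg A (pre β U)) → mp A.charpoly ≤ m →
      Real.exp (mp A.charpoly) ∈ LL K := by
  obtain ⟨s, hs⟩ := deletion_block k m
  refine ⟨m + (s * k : ℕ) * (2 * m + 5 * Real.log 2), fun ι B _ _ _ _ A β hA hk hI hb => ?_⟩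
  obtain ⟨S, hS, h0⟩ := hs ι B A β hA hk hI hb
  obtain ⟨p, hp1⟩ := hI Finset.univ
  obtain ⟨q, hq1⟩ := hI (Finset.univ \ S)
  rw [pre_univ] at hp1
  have hc : (pre β S).card ≤ s * k := (pre_card_le hk S).trans (Nat.mul_le_mul_right k hS)
  obtain ⟨g1, g2, g3⟩ := gcd_cond p q Finset.univ (pre β (Finset.univ \ S)) hp1 hq1 h0
  rw [pre_sdiff, pre_univ] at hq1
  rw [mp_univ] at hp1
  exact deleted_LL (s * k) m ι A hA (pre β S) hc p q hp1 hq1 g3 hb

end

end Pool.Agent.W242.IM
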